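import Pool.Agent.H53.RP.EllMain

namespace Pool.Agent.Results.MP_78211a_gt.NoCircleCondition

open Pool.Agent.H81 Pool.Agent.H53.RP

/-- Finslerian projective-metric planes without any condition on the metric circles: if
perpendicularity is symmetric in every tangent Minkowski plane, then the plane is a Radon plane
or Riemannian. First part: the plane is `ℝ²` or a proper open convex subset of `ℝ²`. Second part:
the plane is the real projective plane `P²` (it is then Riemannian). -/
theorem result :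
    (∀ (M : Set (ℝ × ℝ)) (d : ℝ × ℝ → ℝ × ℝ → ℝ) (F : ℝ × ℝ → ℝ × ℝ → ℝ),
      AffinePlane0 M d → AffineFinsler M F d → (∀ x ∈ M, NormSymPerp (F x)) →
        RadonPlane M d ∨ ∀ x ∈ M, EuclideanNorm (F x)) ∧
    (∀ (d : P2 → P2 → ℝ) (F : (Fin 3 → ℝ) → (Fin 3 → ℝ) → ℝ),
      EllipticPlane0 d → EllipticFinsler F d → (∀ X, X ≠ 0 → NormSymPerp (F X)) →
        ∀ X, X ≠ 0 → EuclideanNorm (F X)) :=
  ⟨fun _ _ _ hM hF hS => AF.main hM hF hS,
    fun _ _ hM hF hS _ hX => ell_main (hMet hM) (hFinsler hF) hS hX⟩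

end Pool.Agent.Results.MP_78211a_gt.NoCircleCondition
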