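import Pool.Agent.H81.EllMain

namespace Pool.Agent.Results.MP_78211a_gt.RadonOrRiemannian

open Pool.Agent.H81

/-- Every Finslerian projective-metric plane with symmetric perpendicularity is a Radon plane or
Riemannian. First part: the plane is `ℝ²` or a proper open convex subset of `ℝ²`. Second part:
the plane is the real projective plane `P²` (it is then Riemannian). -/
theorem result :
    (∀ (M : Set (ℝ × ℝ)) (d : ℝ × ℝ → ℝ × ℝ → ℝ) (F : ℝ × ℝ → ℝ × ℝ → ℝ),
      AffinePlane M d → AffineFinsler M F d → SymPerp (MLines M) d →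
        RadonPlane M d ∨ ∀ x ∈ M, EuclideanNorm (F x)) ∧
    (∀ (d : P2 → P2 → ℝ) (F : (Fin 3 → ℝ) → (Fin 3 → ℝ) → ℝ),
      EllipticPlane d → EllipticFinsler F d → SymPerp PLines d →
        ∀ X, X ≠ 0 → EuclideanNorm (F X)) :=
  ⟨fun _ _ _ hM hF hS => AffineFinsler.main hM hF hS,
    fun _ _ hM hF hS _ hX => ell_main (hPlane hM hS) (hFinsler hF) hX⟩

end Pool.Agent.Results.MP_78211a_gt.RadonOrRiemannian
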